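import Pool.Agent.helper74.DP.SE1
import Pool.Agent.helper64.TP.CH
import Pool.Agent.helper64.TP.Basic
/-!
# Project sp, module SE1: extension of arms with standard end points (brick wall version)
-/

set_option linter.all false

namespace TP

open DP

open MeasureTheory

/-! ## Generalised FKG for brick-disjoint regions -/

/-- brick saturation of a set -/
def SE1_sat (A : Set V) : Set V := {v | ∃ w ∈ A, br v = br w}

theorem SE1_sub_sat (A : Set V) : A ⊆ SE1_sat A := fun v hv => ⟨v, hv, rfl⟩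

/-- a convenient form of `Bgen_stmt`: the regions of the cells need not be saturated and the complement
need not be specified -/
theorem SE1_gen (hgen : Bgen_stmt) (ρ : V → ℝ) (X X' Ep Em Up Um : Set (V → Bool))
    (RX RX' Rp Rm Sp Sm : Set V) (hSS : BDis Sp Sm) (hXp : BDis RX Sp) (hXm : BDis RX Sm)
    (hXp' : BDis RX' Sp) (hXm' : BDis RX' Sm)
    (hpm : BDis Rp Sm) (hmp : BDis Rm Sp) (hX : Loc X RX) (hX' : Loc X' RX') (hEp : Loc Ep Rp)
    (hEm : Loc Em Rm) (hUp : Loc Up Sp) (hUm : Loc Um Sm) (mEp : Mon true Ep) (mEm : Mon false Em)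
    (mUp : Mon true Up) (mUm : Mon false Um) :
    Q ρ (X ∩ (Ep ∩ Em)) (X' ∩ (Ep ∩ Em)) * (Q ρ Up Up * Q ρ Um Um) ≤
      Q ρ (X ∩ (Ep ∩ Em ∩ (Up ∩ Um))) (X' ∩ (Ep ∩ Em ∩ (Up ∩ Um))) := by
  have hout : ∀ {A B : Set V}, BDis A B → ∀ v ∈ A, v ∉ SE1_sat B := by
    rintro A B h v hv ⟨w, hw, hvw⟩
    exact h v hv w hw hvw
  apply hgen ρ X X' Ep Em Up Um (SE1_sat Sp ∪ SE1_sat Sm)ᶜ (SE1_sat Sp) (SE1_sat Sm)
  · rintro v hv w ⟨w', hw', hww⟩ hvw
    exact hv (Or.inl ⟨w', hw', hvw.trans hww⟩)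
  · rintro v hv w ⟨w', hw', hww⟩ hvw
    exact hv (Or.inr ⟨w', hw', hvw.trans hww⟩)
  · rintro v ⟨v', hv', hvv⟩ w ⟨w', hw', hww⟩ hvw
    exact hSS v' hv' w' hw' (hvv.symm.trans (hvw.trans hww))
  · exact hX.mono fun v hv h => h.elim (hout hXp v hv) (hout hXm v hv)
  · exact hX'.mono fun v hv h => h.elim (hout hXp' v hv) (hout hXm' v hv)
  · refine hEp.mono fun v hv => ?_
    by_cases h : v ∈ SE1_sat Sp
    · exact Or.inr h
    · exact Or.inl fun h' => h'.elim h (hout hpm v hv)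
  · refine hEm.mono fun v hv => ?_
    by_cases h : v ∈ SE1_sat Sm
    · exact Or.inr h
    · exact Or.inl fun h' => h'.elim (hout hmp v hv) h
  · exact hUp.mono (SE1_sub_sat _)
  · exact hUm.mono (SE1_sub_sat _)
  · exact mEp
  · exact mEm
  · exact mUp
  · exact mUm

/-! ## Distances between the regions -/

theorem SE1_BDis (j : ℕ) (s : Bool) (x : V) (m : ℕ) (hm : 1 ≤ m) :
    BDis (SE1_reg (SE1_all j s x m true)) (SE1_reg (SE1_all j s x m false)) := by
  apply BDis.of_sd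
  intro v h1 w h2
  obtain ⟨l, -, hk, r, hr, hr1, hr2⟩ := SE1_reg_pos h1
  obtain ⟨l', -, hk', r', hr', hr1', hr2'⟩ := SE1_reg_pos h2
  have h3 := (SE1_zpt_diff x r r' l l' (SE1_kol (by rw [hk, hk']; simp))).1
  have h4 := sd_triangle (zpt x r l) v (zpt x r' l')
  have h5 := sd_triangle v w (zpt x r' l')
  rw [sd_comm w] at h5
  cases s
  · have := hr2 rfl
    omega
  · have := hr1 rfl
    omega

theorem SE1_avoid2 (j : ℕ) (s : Bool) (x : V) (m : ℕ) (hm : 1 ≤ m) (k k' : Bool) (hkk : k' ≠ k)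
    (N : Set V) :
    BDis (HS s x (1024 * m) \ (N ∪ opp j (zpt x (1024 * m)) (128 * m) k))
      (SE1_reg (SE1_all j s x m k')) := by
  apply BDis.of_sd
  intro v hv w h
  by_contra hvw
  rw [not_le] at hvw
  obtain ⟨l, hl, hk, r, hr, hr1, hr2⟩ := SE1_reg_pos h
  obtain ⟨hv1, hv2⟩ := hv
  apply hv2
  refine Or.inr ⟨l, hl, by rw [hk]; exact hkk, ?_⟩
  have h5 := sd_triangle x w (zpt x r l)
  rw [sd_comm w] at h5
  have h5' := sd_triangle x (zpt x r l) w
  have h6 := SE1_sd_zpt x r l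
  have h7 := SE1_zpt_same x (1024 * m) r l
  have h8 := sd_triangle (zpt x (1024 * m) l) (zpt x r l) w
  have h10 := sd_triangle (zpt x (1024 * m) l) w v
  have h11 := sd_triangle x v w
  have h12 := sd_triangle x w v
  rw [sd_comm w v] at h10 h12
  cases s
  · have h9 := hr2 rfl
    have h1 : 1024 * m ≤ sd x v := hv1
    rw [min_eq_right h9.2, max_eq_left h9.2] at h7
    omega
  · have h9 := hr1 rfl
    have h1 : sd x v ≤ 1024 * m := hv1
    rw [min_eq_left h9, max_eq_right h9] at h7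
    omega

theorem SE1_avoidX (j : ℕ) (s : Bool) (x : V) (m : ℕ) (hm : 1 ≤ m) (k : Bool) :
    BDis (if s = true then box x (512 * m) else {v | 2048 * m ≤ sd x v})
      (SE1_reg (SE1_all j s x m k)) := by
  apply BDis.of_sd
  intro v hv w h
  obtain ⟨l, -, hk, r, hr, hr1, hr2⟩ := SE1_reg_pos h
  have h5 := sd_triangle x w (zpt x r l)
  rw [sd_comm w] at h5
  have h5' := sd_triangle x (zpt x r l) w
  have h6 := SE1_sd_zpt x r l
  have h11 := sd_triangle x v w
  have h12 := sd_triangle x w v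
  rw [sd_comm w v] at h12
  cases s
  · simp only [Bool.false_eq_true, if_false] at hv
    have h7 : 2048 * m ≤ sd x v := hv
    have := hr2 rfl
    omega
  · simp only [if_true] at hv
    have h7 : sd x v ≤ 512 * m := hv
    have := hr1 rfl
    omega

theorem SE1_Full_loc (k : Bool) (L : List (V × ℕ)) :
    Loc (Ev fun c => SE1_Full c k L) (SE1_reg L) ∧ Mon k (Ev fun c => SE1_Full c k L) := by
  constructor
  · refine Loc.ev (SE1_reg_finite L) ?_
    intro c c' hc
    constructor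
    · intro h a ha
      obtain ⟨S, hS⟩ := h a ha
      exact ⟨S, CH_loop_colour (fun v hv hv' => (hc v ⟨a, ha, hv⟩) ▸ hv') hS⟩
    · intro h a ha
      obtain ⟨S, hS⟩ := h a ha
      exact ⟨S, CH_loop_colour (fun v hv hv' => (hc v ⟨a, ha, hv⟩).symm ▸ hv') hS⟩
  · refine Mon.ev ?_
    intro c c' hc h a ha
    obtain ⟨S, hS⟩ := h a ha
    exact ⟨S, CH_loop_colour (fun v _ => hc v) hS⟩

theorem SE1_Full_prob (hfkg : Bfkg_stmt) (hsq : Bsq_stmt) (c₀ : ℝ) (k : Bool) (ρ : V → ℝ)
    (L : List (V × ℕ)) (hρ : Profile ρ) (hc : 0 ≤ c₀)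
    (hp : ∀ a ∈ L, c₀ ≤ Pr (Ev fun c => ∃ S, Loop c k a.1 a.2 S)) :
    c₀ ^ (2 * L.length) ≤ Q ρ (Ev fun c => SE1_Full c k L) (Ev fun c => SE1_Full c k L) := by
  induction L with
  | nil =>
    have h1 : (Ev fun c => SE1_Full c k []) = Set.univ := by
      ext b
      simp [Ev, SE1_Full]
    rw [h1, CH_Q_univ]
    simp
  | cons a L ih =>
    have h1 : (Ev fun c => SE1_Full c k (a :: L)) =
        (Ev fun c => SE1_Full c k [a]) ∩ Ev fun c => SE1_Full c k L := by
      ext b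
      simp only [Ev, SE1_Full, List.mem_cons, forall_eq_or_imp, Set.mem_setOf_eq, Set.mem_inter_iff,
        List.not_mem_nil, false_imp_iff, implies_true, and_true]
    have h2 : (Ev fun c => ∃ S, Loop c k a.1 a.2 S) = Ev fun c => SE1_Full c k [a] := by
      ext b
      simp [Ev, SE1_Full]
    have hL1 := SE1_Full_loc k [a]
    have hL2 := SE1_Full_loc k L
    have h3 := hfkg ρ k _ _ (SE1_reg [a] ∪ SE1_reg L) (hL1.1.mono Set.subset_union_left)
      (hL2.1.mono Set.subset_union_right) hL1.2 hL2.2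
    have h4 := hsq ρ _ _ hρ hL1.1
    have h5 := hp a (by simp)
    rw [h2] at h5
    have h6 : c₀ ^ 2 ≤ Q ρ (Ev fun c => SE1_Full c k [a]) (Ev fun c => SE1_Full c k [a]) :=
      le_trans (pow_le_pow_left₀ hc h5 2) h4
    rw [h1]
    refine le_trans ?_ h3
    have e1 : c₀ ^ (2 * (a :: L).length) = c₀ ^ 2 * c₀ ^ (2 * L.length) := by
      rw [List.length_cons]
      ring
    rw [e1]
    exact mul_le_mul h6 (ih fun b hb => hp b (List.mem_cons_of_mem _ hb)) (pow_nonneg hc _)
      (le_trans (pow_nonneg hc 2) h6)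

/-! ## The cells -/

/-! ## Locality and monotonicity of the marked arms -/

theorem SE1_MrkC_loc {j : ℕ} {s : Bool} {x : V} {n r : ℕ} {D : Dat} {y : ℕ → V}
    {a A : ℕ} {k : Bool} (hD : D.ok s x r) :
    Loc (Ev fun c => MrkC c j s x n D y a A k) (HS s x n \ (D.N k ∪ opp j y A k)) ∧
      Mon k (Ev fun c => MrkC c j s x n D y a A k) := by
  constructor
  · refine Loc.ev (SE1_R_finite hD) ?_
    intro c c' hc
    exact ⟨SE1_MrkC_mono fun v hv hv' => (hc v hv) ▸ hv',
      SE1_MrkC_mono fun v hv hv' => (hc v hv).symm ▸ hv'⟩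
  · refine Mon.ev ?_
    intro c c' hc h
    exact SE1_MrkC_mono (fun v _ => hc v) h

/-! ## The extension -/

theorem SE1 (hLH : LH_stmt) (hLC : LC_stmt) (hCH1 : CH1_stmt) (hC1 : C1_stmt) (hfkg : Bfkg_stmt)
    (hsq : Bsq_stmt) (hgen : Bgen_stmt) (hmono : Bmono_stmt) : SE1_stmt := by
  obtain ⟨c₀, hc₀, ℓ₀, hℓ₀, hC⟩ := hC1
  have hc₁ : c₀ ≤ 1 := le_trans (hC true (0, 0) ℓ₀ le_rfl) (SE1_Pr_le_one _)
  refine ⟨c₀ ^ 2080 * c₀ ^ 2080, by positivity, ℓ₀ + 10, ?_⟩
  intro j s ρ x D X i hj hρ _ hi hD hX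
  obtain ⟨m, hmdef⟩ : ∃ m, m = 2 ^ (i - 10) := ⟨_, rfl⟩
  have hm1 : 1 ≤ m := by rw [hmdef]; exact Nat.one_le_two_pow
  have hmℓ : ℓ₀ ≤ m := by
    have h1 : i - 10 < 2 ^ (i - 10) := Nat.lt_two_pow_self
    rw [hmdef]
    omega
  have e0 : 2 ^ i = 1024 * m := by
    rw [hmdef, show (1024 : ℕ) = 2 ^ 10 by norm_num, ← pow_add]
    congr 1
    omega
  have e1 : 2 ^ (i - 1) = 512 * m := by
    rw [hmdef, show (512 : ℕ) = 2 ^ 9 by norm_num, ← pow_add]
    congr 1
    omega
  have e2 : 2 ^ (i + 1) = 2048 * m := by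
    rw [hmdef, show (2048 : ℕ) = 2 ^ 11 by norm_num, ← pow_add]
    congr 1
    omega
  rw [e1, e2] at hD hX
  rw [e0]
  -- the sets
  have hSp := SE1_Full_loc true (SE1_all j s x m true)
  have hSm := SE1_Full_loc false (SE1_all j s x m false)
  have hMp := SE1_MrkC_loc (j := j) (n := 1024 * m) (y := zpt x (1024 * m)) (a := 1024 * m / 64)
    (A := 1024 * m / 8) (k := true) hD
  have hMm := SE1_MrkC_loc (j := j) (n := 1024 * m) (y := zpt x (1024 * m)) (a := 1024 * m / 64)
    (A := 1024 * m / 8) (k := false) hD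
  have e4 : 1024 * m / 8 = 128 * m := by omega
  rw [e4] at hMp hMm
  have hXl : Loc X (if s = true then box x (512 * m) else {v | 2048 * m ≤ sd x v}) := by
    cases s
    · unfold Extra at hX
      simp only [Bool.false_eq_true, if_false] at hX ⊢
      exact hX
    · unfold Extra at hX
      simp only [if_true] at hX ⊢
      exact hX
  have key := SE1_gen hgen ρ X X
    (Ev fun c => MrkC c j s x (1024 * m) D (zpt x (1024 * m)) (1024 * m / 64) (1024 * m / 8) true)
    (Ev fun c => MrkC c j s x (1024 * m) D (zpt x (1024 * m)) (1024 * m / 64) (1024 * m / 8) false)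
    (Ev fun c => SE1_Full c true (SE1_all j s x m true))
    (Ev fun c => SE1_Full c false (SE1_all j s x m false))
    _ _
    (HS s x (1024 * m) \ (D.N true ∪ opp j (zpt x (1024 * m)) (128 * m) true))
    (HS s x (1024 * m) \ (D.N false ∪ opp j (zpt x (1024 * m)) (128 * m) false))
    (SE1_reg (SE1_all j s x m true)) (SE1_reg (SE1_all j s x m false))
    (SE1_BDis j s x m hm1)
    (SE1_avoidX j s x m hm1 true) (SE1_avoidX j s x m hm1 false)
    (SE1_avoidX j s x m hm1 true) (SE1_avoidX j s x m hm1 false)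
    (SE1_avoid2 j s x m hm1 true false (by simp) _)
    (SE1_avoid2 j s x m hm1 false true (by simp) _)
    hXl hXl (by rw [e4]; exact hMp.1) (by rw [e4]; exact hMm.1) hSp.1 hSm.1
    (by rw [e4]; exact hMp.2) (by rw [e4]; exact hMm.2) hSp.2 hSm.2
  have hset : ∀ n, X ∩ ((Ev fun c => MrkC c j s x n D (zpt x n) (n / 64) (n / 8) true) ∩
      (Ev fun c => MrkC c j s x n D (zpt x n) (n / 64) (n / 8) false)) =
      X ∩ Ev fun c => Std c j s x n D := by
    intro n
    ext b
    unfold Std Mrk Ev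
    simp only [Set.mem_inter_iff, Set.mem_setOf_eq]
  rw [hset (1024 * m)] at key
  have hincl : X ∩ (((Ev fun c => MrkC c j s x (1024 * m) D (zpt x (1024 * m)) (1024 * m / 64)
        (1024 * m / 8) true) ∩
      (Ev fun c => MrkC c j s x (1024 * m) D (zpt x (1024 * m)) (1024 * m / 64)
        (1024 * m / 8) false)) ∩
      ((Ev fun c => SE1_Full c true (SE1_all j s x m true)) ∩
        Ev fun c => SE1_Full c false (SE1_all j s x m false))) ⊆
      X ∩ Ev fun c => Std c j s x (nx s (1024 * m)) D := by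
    rintro b ⟨hb1, ⟨hb2, hb3⟩, hb4, hb5⟩
    exact ⟨hb1, SE1_ext hLH hLC hCH1 (col b) true j hj s x m hm1 D hD hb2 hb4,
      SE1_ext hLH hLC hCH1 (col b) false j hj s x m hm1 D hD hb3 hb5⟩
  have hm := hmono ρ _ _ _ _ hincl hincl
  have hloops : ∀ k : Bool, ∀ a ∈ SE1_all j s x m k,
      c₀ ≤ Pr (Ev fun c => ∃ S, Loop c k a.1 a.2 S) := by
    intro k a ha
    apply hC
    obtain ⟨l, -, -, hal⟩ := SE1_all_mem ha
    rcases SE1_cells_mem hal with rfl | ⟨t, -, rfl⟩
    · simp only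
      omega
    · exact hmℓ
  have hP : ∀ k : Bool, c₀ ^ 2080 ≤ Q ρ (Ev fun c => SE1_Full c k (SE1_all j s x m k))
      (Ev fun c => SE1_Full c k (SE1_all j s x m k)) := by
    intro k
    refine le_trans ?_ (SE1_Full_prob hfkg hsq c₀ k ρ _ hρ hc₀.le (hloops k))
    apply pow_le_pow_of_le_one hc₀.le hc₁
    have := SE1_length j hj s x m k
    omega
  have hprod : c₀ ^ 2080 * c₀ ^ 2080 ≤
      Q ρ (Ev fun c => SE1_Full c true (SE1_all j s x m true))
        (Ev fun c => SE1_Full c true (SE1_all j s x m true)) *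
      Q ρ (Ev fun c => SE1_Full c false (SE1_all j s x m false))
        (Ev fun c => SE1_Full c false (SE1_all j s x m false)) :=
    mul_le_mul (hP true) (hP false) (by positivity) (SE1_Q_nonneg _ _ _)
  have hQ := SE1_Q_nonneg ρ (X ∩ Ev fun c => Std c j s x (1024 * m) D)
    (X ∩ Ev fun c => Std c j s x (1024 * m) D)
  calc c₀ ^ 2080 * c₀ ^ 2080 * Q ρ (X ∩ Ev fun c => Std c j s x (1024 * m) D)
        (X ∩ Ev fun c => Std c j s x (1024 * m) D)
      ≤ (Q ρ (Ev fun c => SE1_Full c true (SE1_all j s x m true))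
        (Ev fun c => SE1_Full c true (SE1_all j s x m true)) *
      Q ρ (Ev fun c => SE1_Full c false (SE1_all j s x m false))
        (Ev fun c => SE1_Full c false (SE1_all j s x m false))) *
        Q ρ (X ∩ Ev fun c => Std c j s x (1024 * m) D)
        (X ∩ Ev fun c => Std c j s x (1024 * m) D) :=
        mul_le_mul_of_nonneg_right hprod hQ
    _ = Q ρ (X ∩ Ev fun c => Std c j s x (1024 * m) D)
        (X ∩ Ev fun c => Std c j s x (1024 * m) D) *
        (Q ρ (Ev fun c => SE1_Full c true (SE1_all j s x m true))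
        (Ev fun c => SE1_Full c true (SE1_all j s x m true)) *
      Q ρ (Ev fun c => SE1_Full c false (SE1_all j s x m false))
        (Ev fun c => SE1_Full c false (SE1_all j s x m false))) := by ring
    _ ≤ _ := key
    _ ≤ _ := hm

end TP
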